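import Pool.Agent.H.MP_720da9_gt.Geo2
import Pool.Agent.H.MP_720da9_gt.Comb

namespace Pool.Agent.Results.MP_720da9_gt.Yes

open Pool.Agent.H.MP_720da9_gt

/-- `K_9` is strongly intrinsically linked: in every polygonal spatial embedding of `K_9` with a
regular projection there are two vertex-disjoint cycles with linking number at least two in
absolute value. -/
theorem result (E : Spatial 9) (ha : E.Apart) (hr : E.Regular) :
    ∃ C D : List (Fin 9), 3 ≤ C.length ∧ 3 ≤ D.length ∧ (C ++ D).Nodup ∧
      2 ≤ |linking (E.polygon C) (E.polygon D)| := by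
  by_contra h
  push Not at h
  exact not_HH _ (HH_of E ha hr h)

end Pool.Agent.Results.MP_720da9_gt.Yes
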